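import Mathlib
import Pool.Agent.H200M.Near2

set_option autoImplicit false

/-!
# Prime divisors with `h¹ ≠ 0` have a standard form which is critical outside chains

A class `(d; w)` is CRITICAL OUTSIDE CHAINS (`Pool.Agent.H200M.TightCh c`, for a function `c` with
positive values) if for every `ε > 0`, `t ≥ 1`, every point `p` and every set `A` of other points with
arbitrary multiplicities on a chain of curves of degrees `E 0 ≥ E 1 ≥ … ≥ 1` with margin `t`
(`Pool.Agent.H200M.ChainCore`), i.e. with `w i ≤ m` for `i ∈ A` and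
* `w p + (E 0 + … + E (m - 1)) + 2 ^ 27 t E 0 ≤ d`,
* for `k < m`, if `k = 0` or `E k < E (k - 1)`:
  `∑_A max (w i - k) 0 + E k (E 0 + … + E (k - 1)) + 2 ^ 31 t E k (E 0 + E k g k) ≤ E k d`,
  where `g k` is the number of the `i ∈ A` with `k < w i ≤ k + 2 ^ 26 t`,
such that `w i ≤ c(ε) t` for all other points `i`, the volume `X = (d + 1) (d + 2) - ∑_{A ∪ p} w i (w i + 1)`
left by the points of the chain is filled by the large ones of the other multiplicities up to the part `ε`
(`Pool.Agent.H200M.Tight`): all other multiplicities together have `|X - ∑ w i (w i + 1)| < ε X`; for every `μ`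
such that all nonzero values `≤ μ` at the other points are taken at least `2 ^ 29` times
there, or the number `k` of the values `≤ μ` satisfies `(k + 1) μ ^ 2 ≤ c(ε) X`, the other
multiplicities `> c(ε) μ` have `∑ w i ^ 2 > (1 - ε) X` and those `≤ c(ε) μ` have `∑ w i ^ 2 < ε X`.

There is a function `c` with positive values such that: let `k` be a field of characteristic zero, `X`
the blow-up of the plane at `s ≥ 4` generic points, and `C` a prime divisor of class `(d, w)` on `X`. Then
`h¹ (C) = 0`, or finitely many quadratic transformations carry `(d, w)` to a special standard class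
`(d1, w1)` with `h⁰ (d1, w1) = h⁰ (C)` which is critical outside chains.

Without any exception: for all `ε > 0` and all `t`, `p`, `A` as above (of the standard form) such that all
other multiplicities are at most `c(ε) t`, the dimension of the space of forms is at most
`max (χ, ε X / 2)` (`Pool.Agent.H200M.BoundCh`); here `X / 2` is the number of forms left by the chain,
as expected.
-/

namespace Pool.Agent.Results.MP_0dccba_ag.PrimeCurveChains

open MvPolynomial Pool.Agent.TH167.SHDefs
open Pool.Agent.Y536.SH (Standard)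
open Pool.Agent.H200M (TightCh BoundCh dimCh_all)

/-- `h¹` of the class `d H - ∑ w i E i`: the dimension of the linear system minus the virtual one. -/
noncomputable def hOne {k : Type} [Field k] {s : ℕ} (P : Fin s → Fin 2 → k) (d : ℕ)
    (w : Fin s → ℕ) : ℤ := dimL P d w - virtdim d w

theorem result : ∃ c : ℝ → ℝ, (∀ ε, 0 < ε → 0 < c ε) ∧
    ∀ (k : Type) [Field k] [CharZero k] (s : ℕ), 4 ≤ s →
    ∀ (P : Fin s → Fin 2 → k),
      AlgebraicIndependent ℚ (fun ij : Fin s × Fin 2 => P ij.1 ij.2) →
      ∀ (d : ℕ) (w : Fin s → ℕ) (C : MvPolynomial (Fin 3) k), Curve P C d w →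
        hOne P d w = 0 ∨ ∃ (d1 : ℕ) (w1 : Fin s → ℕ),
          Relation.ReflTransGen Quadratic (d, w) (d1, w1) ∧ Standard d1 w1 ∧
          Special P d1 w1 ∧ dimL P d1 w1 = dimL P d w ∧ TightCh c d1 w1 ∧
          BoundCh c d1 w1 ((dimL P d w : ℝ) + 1) := by
  obtain ⟨c, hc, H, HB⟩ := dimCh_all
  refine ⟨c, hc, fun k _ _ s hs P hP d w C hC => ?_⟩
  obtain ⟨r, rfl⟩ : ∃ r, s = r + 4 := ⟨s - 4, by omega⟩
  by_cases h : dimL P d w = virtdim d w
  · left
    unfold hOne
    omega
  · right
    obtain ⟨d1, w1, h1, h2, h3, h4, h5⟩ := Pool.Agent.Y536.SH.prime_full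
      (Q := fun d' w' => ¬ TightCh c d' w') (fun hP d1 w1 hr hG => H w1 hG hP) hP hC h
    refine ⟨d1, w1, h1, h2, h3, h4, not_not.1 h5, ?_⟩
    have h6 := HB w1 hP (d := d1)
    have h7 : ((dimL P d w : ℝ) + 1) = (Module.finrank k ↥(sys P d1 w1) : ℝ) := by
      rw [← h4]
      unfold dimL
      push_cast
      ring
    rw [h7]
    exact h6

end Pool.Agent.Results.MP_0dccba_ag.PrimeCurveChains
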