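import Mathlib
import Pool.Agent.H200G.All
import Pool.Agent.H200W.All

set_option autoImplicit false

/-!
# Prime divisors with `h¹ ≠ 0` have a standard form which is not a union of families

The multiplicities `w` are a UNION OF FAMILIES (`Pool.Agent.H200G.Families`) if the points can be divided
into groups, of any number and any sizes, such that in every group the sum of the squares of the
multiplicities is at least `2 ^ 29` times the number of the different nonzero values times the square
of the largest one; e.g. if every nonzero value occurs at least `2 ^ 29` times.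
`Fam d w` (`Pool.Agent.H200G.Fam`): `w` is a union of families; or there is a union `v ≤ w` of families
with `(d + 2).choose 2 ≤ ∑ (v i + 1).choose 2`; or a union `v` of families on at least these points with
`w ≤ v` and `∑ (v i + 1).choose 2 ≤ (d + 2).choose 2`. This includes all `w` such that the points whose
multiplicity occurs at least `2 ^ 29` times impose at least `(d + 2).choose 2` conditions, and all with
`∑ (w i + 1).choose 2 + 2 ^ 29 ∑ (a + 1).choose 2 ≤ (d + 2).choose 2`, where `a` runs through the other
values (`Pool.Agent.H200G.rep_fam`).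

Let `k` be a field of characteristic zero and `X` the blow-up of the plane at `s ≥ 4` generic points.
Let `C` be a prime divisor of class `(d, w)` on `X`. Then `h¹ (C) = 0`, or finitely many quadratic
transformations carry `(d, w)` to a special standard class `(d1, w1)` with `h⁰ (d1, w1) = h⁰ (C)`,
without `Fam d1 w1`.
-/

namespace Pool.Agent.Results.MP_0dccba_ag.PrimeFamilies

open MvPolynomial Pool.Agent.TH167.SHDefs
open Pool.Agent.Y536.SH (Standard)
open Pool.Agent.H200G (Fam fam_all)

/-- `h¹` of the class `d H - ∑ w i E i`: the dimension of the linear system minus the virtual one. -/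
noncomputable def hOne {k : Type} [Field k] {s : ℕ} (P : Fin s → Fin 2 → k) (d : ℕ)
    (w : Fin s → ℕ) : ℤ := dimL P d w - virtdim d w

theorem result (k : Type) [Field k] [CharZero k] (s : ℕ) (hs : 4 ≤ s) (P : Fin s → Fin 2 → k)
    (hP : AlgebraicIndependent ℚ (fun ij : Fin s × Fin 2 => P ij.1 ij.2)) (d : ℕ) (w : Fin s → ℕ)
    (C : MvPolynomial (Fin 3) k) (hC : Curve P C d w) :
    hOne P d w = 0 ∨ ∃ (d1 : ℕ) (w1 : Fin s → ℕ),
      Relation.ReflTransGen Quadratic (d, w) (d1, w1) ∧ Standard d1 w1 ∧
      Special P d1 w1 ∧ dimL P d1 w1 = dimL P d w ∧ ¬ Fam d1 w1 := by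
  obtain ⟨r, rfl⟩ : ∃ r, s = r + 4 := ⟨s - 4, by omega⟩
  by_cases h : dimL P d w = virtdim d w
  · left
    unfold hOne
    omega
  · right
    exact Pool.Agent.Y536.SH.prime_full (Q := fun d' w' => Fam d' w')
      (fun hP d1 w1 hr hG => fam_all hG hP) hP hC h

end Pool.Agent.Results.MP_0dccba_ag.PrimeFamilies
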