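import Mathlib
import Pool.Agent.H200M.Near2

set_option autoImplicit false

/-!
# Prime divisors with `h¹ ≠ 0` have a standard form which is critical outside three points

A class `(d; w)` is CRITICAL OUTSIDE THREE POINTS (`Pool.Agent.H200M.Tight3 c`, for a function `c` with
positive values) if for every `ε > 0` and all three points `p` with arbitrary multiplicities
`w (p 2) ≤ w (p 1) ≤ w (p 0)`, `w (p 0) + w (p 1) + w (p 2) ≤ d`, such that `w i ≤ c(ε) (d - w (p 0))` for
all other points `i`, the volume `X = (d + 1) (d + 2) - ∑_j w (p j) (w (p j) + 1)` left by the three points is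
filled by the large ones of the other multiplicities up to the part `ε` (`Pool.Agent.H200M.Tight`): all other
multiplicities together have `|X - ∑ w i (w i + 1)| < ε X`; and
for every `μ` such that all nonzero values `≤ μ` at the other points are taken at least `2 ^ 29` times
there, or the number `k` of the values `≤ μ` satisfies `(k + 1) μ ^ 2 ≤ c(ε) X`, the other
multiplicities `> c(ε) μ` have `∑ w i ^ 2 > (1 - ε) X` and those `≤ c(ε) μ` have `∑ w i ^ 2 < ε X`.
(`μ = a X ^ (1 / 3)` with a small constant `a` is always such a number, `Pool.Agent.H200M.few_cube`.)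

There is a function `c` with positive values such that: let `k` be a field of characteristic zero, `X`
the blow-up of the plane at `s ≥ 4` generic points, and `C` a prime divisor of class `(d, w)` on `X`. Then
`h¹ (C) = 0`, or finitely many quadratic transformations carry `(d, w)` to a special standard class
`(d1, w1)` with `h⁰ (d1, w1) = h⁰ (C)` which is critical outside three points.

Without any exception: for all `ε > 0` and all three points `p` as above (of the standard form) such that all
other multiplicities are at most `c(ε) (d - w (p 0))`, the dimension of the space of forms is at most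
`max (χ, ε X / 2)` (`Pool.Agent.H200M.Bound3`); here `X / 2` is the number of forms left by the three
points, as expected.
-/

namespace Pool.Agent.Results.MP_0dccba_ag.PrimeThreeArbitrary

open MvPolynomial Pool.Agent.TH167.SHDefs
open Pool.Agent.Y536.SH (Standard)
open Pool.Agent.H200M (Tight3 Bound3 dim3_all)

/-- `h¹` of the class `d H - ∑ w i E i`: the dimension of the linear system minus the virtual one. -/
noncomputable def hOne {k : Type} [Field k] {s : ℕ} (P : Fin s → Fin 2 → k) (d : ℕ)
    (w : Fin s → ℕ) : ℤ := dimL P d w - virtdim d w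

theorem result : ∃ c : ℝ → ℝ, (∀ ε, 0 < ε → 0 < c ε) ∧
    ∀ (k : Type) [Field k] [CharZero k] (s : ℕ), 4 ≤ s →
    ∀ (P : Fin s → Fin 2 → k),
      AlgebraicIndependent ℚ (fun ij : Fin s × Fin 2 => P ij.1 ij.2) →
      ∀ (d : ℕ) (w : Fin s → ℕ) (C : MvPolynomial (Fin 3) k), Curve P C d w →
        hOne P d w = 0 ∨ ∃ (d1 : ℕ) (w1 : Fin s → ℕ),
          Relation.ReflTransGen Quadratic (d, w) (d1, w1) ∧ Standard d1 w1 ∧
          Special P d1 w1 ∧ dimL P d1 w1 = dimL P d w ∧ Tight3 c d1 w1 ∧
          Bound3 c d1 w1 ((dimL P d w : ℝ) + 1) := by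
  obtain ⟨c, hc, H, HB⟩ := dim3_all
  refine ⟨c, hc, fun k _ _ s hs P hP d w C hC => ?_⟩
  obtain ⟨r, rfl⟩ : ∃ r, s = r + 4 := ⟨s - 4, by omega⟩
  by_cases h : dimL P d w = virtdim d w
  · left
    unfold hOne
    omega
  · right
    obtain ⟨d1, w1, h1, h2, h3, h4, h5⟩ := Pool.Agent.Y536.SH.prime_full
      (Q := fun d' w' => ¬ Tight3 c d' w') (fun hP d1 w1 hr hG => H w1 hG hP) hP hC h
    refine ⟨d1, w1, h1, h2, h3, h4, not_not.1 h5, ?_⟩
    have h6 := HB w1 hP (d := d1)
    have h7 : ((dimL P d w : ℝ) + 1) = (Module.finrank k ↥(sys P d1 w1) : ℝ) := by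
      rw [← h4]
      unfold dimL
      push_cast
      ring
    rw [h7]
    exact h6

end Pool.Agent.Results.MP_0dccba_ag.PrimeThreeArbitrary
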