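import Mathlib
import Pool.Agent.Q299.IU.Main
import Pool.Agent.Results.MP_0421d9_ag.IrreducibleMembers

set_option autoImplicit false

/-!
# Prime divisors with equal multiplicities at very general points

Let `P 1, …, P n`, `n ≥ 400000`, be points of the complex projective plane whose `2 n` affine
coordinates are algebraically independent over `ℚ`, let `m ≤ ⌊n / 400000⌋!` and `d ≥ 1`.

* The class `d H - m ∑ E i` is the class of a prime divisor if and only if
  `χ = (d + 2).choose 2 - n * (m + 1).choose 2 ≥ 1`, and then `h⁰ = χ`, `h¹ = 0`.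
* For `k = χ - 1` further points `Q j` such that all coordinates are algebraically independent, the
  only member of the system through all `Q j` is a prime divisor with multiplicity exactly `m` at
  all `P i`. For `k = 0` this says that the only member of the system is a prime divisor, a rigid
  curve of positive self-intersection `n m - 3 d`.
* Infinitely many such rigid prime divisors are given by `n = t ^ 2 - 1`, `d = n (t + 3)`,
  `m = n + 3 t`, with self-intersection `n (n - 9)`, for all `t ≥ 2098`.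

The case `k ≥ 1` is our theorem `Pool.Agent.Results.MP_0421d9_ag.IrreducibleMembers`, for every `m`.
For `k = 0` the components of the only member are conjugate (same theorem). If there were at least
two, their multiplicities `u` would be nearly proportional to `(1, …, 1)`, by the inequality
`∑ u i ^ 2 ≤ e ^ 2 + min u` of Xu; so either there are few different multiplicities, the class of a
component has the expected dimension by the starting library and this contradicts the inequality of
Cauchy and Schwarz, or there are many different multiplicities and more than `m` components.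
-/

namespace Pool.Agent.Results.MP_0dccba_ag.UniformPrimeDivisors

open MvPolynomial Pool.Agent.W609.CR Pool.Agent.TH167 Pool.Agent.TH167.SHDefs
open Pool.Agent.TH167.SH hiding hh
open Pool.Agent.Q299.IR

theorem fac_ge (q : ℕ) (hq : 11 ≤ q) : 800000 * (q + 1) ≤ q.factorial := by
  induction q, hq using Nat.le_induction with
  | base => decide
  | succ q hq ih =>
    rw [Nat.factorial_succ]
    nlinarith

theorem members {n m d : ℕ} (hn : 400000 ≤ n) (hm : m ≤ (n / 400000).factorial) (hd1 : 1 ≤ d)
    (P : Fin n → Fin 2 → ℂ) (hP : AlgebraicIndependent ℚ (fun ij : Fin n × Fin 2 => P ij.1 ij.2))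
    (k : ℕ) (hd : (d + 2).choose 2 = n * (m + 1).choose 2 + (k + 1)) (Q : Fin k → Fin 2 → ℂ)
    (hPQ : AlgebraicIndependent ℚ (fun ij : Fin (n + k) × Fin 2 => Fin.append P Q ij.1 ij.2)) :
    ∃ F, Curve P F d (fun _ => m) ∧
      ∀ F', (F' ∈ sys P d (fun _ => m) ∧ ∀ j, eval ![Q j 0, Q j 1, 1] F' = 0) ↔
        ∃ c : ℂ, F' = c • F := by
  obtain ⟨h1, h2, h3⟩ := Pool.Agent.Results.MP_0421d9_ag.IrreducibleMembers.result
    (Or.inl (by omega)) hd P hP
  rcases Nat.eq_zero_or_pos k with rfl | hk
  · obtain ⟨F, hF, -, hFm, -⟩ := h3 rfl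
    have hU := Pool.Agent.Results.MP_0421d9_ag.IrreducibleMembers.unif (n := n)
      (Or.inl (by omega)) hP
    have hFs : F ∈ sys P d (fun _ => m) := (hF F).2 ⟨1, (one_smul _ _).symm⟩
    have hF0 : F ≠ 0 := by
      rintro rfl
      have h4 : sys P d (fun _ => m) = ⊥ := by
        rw [eq_bot_iff]
        intro x hx
        obtain ⟨c, hc⟩ := (hF x).1 hx
        rw [hc, smul_zero]
        exact Submodule.zero_mem _
      rw [h4, finrank_bot] at h1
      omega
    rw [sys_eq] at hFs
    have hFh := ((mem_VS _ _ _ _).1 hFs).1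
    have hk : hh n d m = 1 := by
      unfold hh
      omega
    have hirr := Pool.Agent.Q299.IU.irreducible hn hm hd1 hP hU hk hFs hF0
    refine ⟨F, curve_iff.2 ⟨hirr, hFh, fun i => ⟨(t_link ℂ (P i) m F d hFh).2 (hFm i).1,
      fun h => (hFm i).2 ((t_link ℂ (P i) (m + 1) F d hFh).1 h)⟩⟩, fun F' => ?_⟩
    rw [← hF F']
    exact ⟨fun h => h.1, fun h => ⟨h, fun j => j.elim0⟩⟩
  · exact (h2 hk).2.2 Q hPQ

theorem result :
    (∀ {n m d : ℕ}, 400000 ≤ n → m ≤ (n / 400000).factorial → 1 ≤ d →
      ∀ P : Fin n → Fin 2 → ℂ, AlgebraicIndependent ℚ (fun ij : Fin n × Fin 2 => P ij.1 ij.2) →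
        ((∃ F, Curve P F d (fun _ => m)) ↔ n * (m + 1).choose 2 < (d + 2).choose 2) ∧
        (n * (m + 1).choose 2 < (d + 2).choose 2 →
          Module.finrank ℂ ↥(sys P d (fun _ => m)) + n * (m + 1).choose 2 = (d + 2).choose 2) ∧
        ∀ k : ℕ, (d + 2).choose 2 = n * (m + 1).choose 2 + (k + 1) → ∀ Q : Fin k → Fin 2 → ℂ,
          AlgebraicIndependent ℚ (fun ij : Fin (n + k) × Fin 2 => Fin.append P Q ij.1 ij.2) →
          ∃ F, Curve P F d (fun _ => m) ∧
            ∀ F', (F' ∈ sys P d (fun _ => m) ∧ ∀ j, eval ![Q j 0, Q j 1, 1] F' = 0) ↔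
              ∃ c : ℂ, F' = c • F) ∧
    ∀ n t : ℕ, 2098 ≤ t → n = t ^ 2 - 1 → ∀ P : Fin n → Fin 2 → ℂ,
      AlgebraicIndependent ℚ (fun ij : Fin n × Fin 2 => P ij.1 ij.2) →
        (n * (t + 3)) ^ 2 = ∑ _i : Fin n, (n + 3 * t) ^ 2 + n * (n - 9) ∧
        ∃ F, Curve P F (n * (t + 3)) (fun _ => n + 3 * t) ∧
          ∀ F', F' ∈ sys P (n * (t + 3)) (fun _ => n + 3 * t) ↔ ∃ c : ℂ, F' = c • F := by
  constructor
  · intro n m d hn hm hd1 P hP
    have hex : n * (m + 1).choose 2 < (d + 2).choose 2 → ∃ k : ℕ,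
        (d + 2).choose 2 = n * (m + 1).choose 2 + (k + 1) := fun h =>
      ⟨(d + 2).choose 2 - n * (m + 1).choose 2 - 1, by omega⟩
    refine ⟨⟨?_, fun h => ?_⟩, fun h => ?_, fun k hd Q hPQ => members hn hm hd1 P hP k hd Q hPQ⟩
    · rintro ⟨F, hF⟩
      obtain ⟨hFi, hFh, hFo⟩ := curve_iff.1 hF
      have hU := Pool.Agent.Results.MP_0421d9_ag.IrreducibleMembers.unif (n := n)
        (Or.inl (by omega)) hP d m
      have hmem : F ∈ VS (fun i => aff (P i)) (fun _ : Fin n => m) d :=
        (mem_VS _ _ _ _).2 ⟨hFh, fun i => (hFo i).1⟩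
      have hfin := vs_fin (fun i => aff (P i)) (fun _ : Fin n => m) d
      have h3 : 0 < Module.finrank ℂ ↥(VS (fun i => aff (P i)) (fun _ : Fin n => m) d) := by
        rw [Module.finrank_pos_iff_exists_ne_zero]
        exact ⟨⟨F, hmem⟩, fun h => hFi.ne_zero (congrArg Subtype.val h)⟩
      rw [hU] at h3
      unfold hh at h3
      omega
    · obtain ⟨k, hk⟩ := hex h
      obtain ⟨Q, hPQ⟩ := exists_Q k hP
      obtain ⟨F, hF, -⟩ := members hn hm hd1 P hP k hk Q hPQ
      exact ⟨F, hF⟩
    · obtain ⟨k, hk⟩ := hex h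
      obtain ⟨h1, -, -⟩ := Pool.Agent.Results.MP_0421d9_ag.IrreducibleMembers.result
        (Or.inl (by omega)) hk P hP
      omega
  · intro n t ht hnt P hP
    have hn1 : n + 1 = t * t := by
      rw [hnt, pow_two]
      have : 1 ≤ t * t := Nat.mul_pos (by omega) (by omega)
      omega
    have hn : 4401603 ≤ n := by
      have : 2098 * 2098 ≤ t * t := Nat.mul_le_mul ht ht
      omega
    obtain ⟨r, hr⟩ : ∃ r, n = r + 9 := ⟨n - 9, by omega⟩
    have hr1 : r + 10 = t * t := by omega
    have hm : n + 3 * t ≤ (n / 400000).factorial := by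
      have h1 := fac_ge (n / 400000) (by omega)
      have h2 : n < 400000 * (n / 400000 + 1) := by omega
      have h3 : 3 * t ≤ t * t := Nat.mul_le_mul_right t (by omega)
      omega
    have hchi : (n * (t + 3) + 2).choose 2 = n * (n + 3 * t + 1).choose 2 + (0 + 1) := by
      have h1 := two_ch' (n * (t + 3))
      have h2 := two_ch (n + 3 * t)
      have e1 : 2 * (n * (n + 3 * t + 1).choose 2) = n * ((n + 3 * t + 1) * (n + 3 * t)) := by
        rw [← h2]
        ring
      have e2 : (n * (t + 3) + 2) * (n * (t + 3) + 1) =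
          n * ((n + 3 * t + 1) * (n + 3 * t)) + 2 := by
        rw [hr]
        have h3 : (((r + 9) * (t + 3) + 2) * ((r + 9) * (t + 3) + 1) : ℤ) =
          (r + 9) * ((r + 9 + 3 * t + 1) * (r + 9 + 3 * t)) + 2 := by
          have h4 : (r : ℤ) + 10 = t * t := by exact_mod_cast hr1
          have h5 : (r : ℤ) = t * t - 10 := by linarith
          rw [h5]
          ring
        exact_mod_cast h3
      omega
    obtain ⟨Q, hPQ⟩ := exists_Q 0 hP
    obtain ⟨F, hF, hF'⟩ := members (by omega) hm (Nat.mul_pos (by omega) (by omega)) P hP 0 hchi Q hPQ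
    refine ⟨?_, F, hF, fun F' => ?_⟩
    · rw [Finset.sum_const, Finset.card_univ, Fintype.card_fin, smul_eq_mul, hr,
        Nat.add_sub_cancel]
      have h3 : (((r + 9) * (t + 3)) ^ 2 : ℤ) =
          (r + 9) * (r + 9 + 3 * t) ^ 2 + (r + 9) * r := by
        have h4 : (r : ℤ) + 10 = t * t := by exact_mod_cast hr1
        have h5 : (r : ℤ) = t * t - 10 := by linarith
        rw [h5]
        ring
      exact_mod_cast h3
    · rw [← hF' F']
      exact ⟨fun h => ⟨h, fun j => j.elim0⟩, fun h => h.1⟩

end Pool.Agent.Results.MP_0dccba_ag.UniformPrimeDivisors
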